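import Pool.Agent.H239.MX.Part7

set_option autoImplicit false

/-!
# Circuits for the product of two partial rearrangements of the same variables

Definitions: `Circuit`, `Circuit.size` are in `Pool.Agent.H522R2.Circuit`; `entryMM`, `sizeMM`
(`S_K(MM_m)`), `trank` (rank of the tensor of matrix multiplication), `growth`, `omega`,
`Superlinear` in `Pool.Agent.W956.KF.Defs`; `EvSuperlinear` in `Pool.Agent.H239.SP.Part6`;
`pEntry` (entries of the product) in `Pool.Agent.H239.MX.Part3`, `terms` in
`Pool.Agent.H239.MX.Part5`, `live`, `pSize` in `Pool.Agent.H239.MX.Part6`, `blockPoly` in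
`Pool.Agent.H239.MX.Part7`.
-/

namespace Pool.Agent.Results.MP_e72dc0_lc.PartialProducts

open Finset Filter MvPolynomial Pool.Agent.H522R2 Pool.Agent.W956.KF Pool.Agent.H239.MX
open Pool.Agent.H239.SP (EvSuperlinear)

/-- **Many elementary products.** The matrices `F`, `H` have the entries `p x (X (π x))` and
`q y (X (ρ y))`. If at least `ε m ^ 3` of the `m ^ 3` elementary products have two factors with a
derivative that is not zero at all points of the field, and `π`, `ρ` are injective on the
positions of such factors, then circuits for `F H` give circuits for the product of two independent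
matrices. -/
def TermsBound : Prop :=
  ∀ (K : Type) [Field K] (V : Type) [Fintype V] [DecidableEq V] (m : ℕ) (ε : ℝ)
    (π ρ : Fin m × Fin m → V) (p q : Fin m × Fin m → Polynomial K) (C : Circuit K V), 0 < ε →
    65 / ε ^ 3 ≤ m → Set.InjOn π (live p) → Set.InjOn ρ (live q) →
    ε * (m : ℝ) ^ 3 ≤ terms (live p) (live q) →
    (∀ i k : Fin m, ∃ v : Fin C.nodes, C.poly v = pEntry π p ρ q i k) →
    (sizeMM K m : ℝ) ≤
        2 * m ^ 2 + 2227 * (8 * Real.log m + 1) ^ 2 / ε ^ 7 * (16 * C.size + m ^ 2) ∧
      (trank K m m m : ℝ) ≤ 4454 * (8 * Real.log m + 1) ^ 2 / ε ^ 7 * C.size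

/-- **Growth.** For families with `m ^ (3 - o(1))` such elementary products the growth exponent is
that of matrix multiplication, and a superlinear lower bound is equivalent to the one asked for. -/
def TermsGrowth : Prop :=
  ∀ (K : Type) [Field K] (d : ℕ) (V : ℕ → Type) [∀ m, Fintype (V m)] [∀ m, DecidableEq (V m)]
    (π ρ : (m : ℕ) → Fin m × Fin m → V m) (p q : (m : ℕ) → Fin m × Fin m → Polynomial K),
    (∀ m x, (p m x).natDegree ≤ d ∧ (q m x).natDegree ≤ d) →
    (∀ m, Set.InjOn (π m) (live (p m))) → (∀ m, Set.InjOn (ρ m) (live (q m))) →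
    (∀ δ : ℝ, 0 < δ → ∀ᶠ m : ℕ in atTop,
      (m : ℝ) ^ (3 - δ) ≤ terms (live (p m)) (live (q m))) →
    growth (fun m => pSize K (π m) (p m) (ρ m) (q m)) = omega K ∧
      (EvSuperlinear (fun m => pSize K (π m) (p m) (ρ m) (q m)) ↔ Superlinear (sizeMM K))

/-- **Density.** Sets of positions with `(1 + ε) m ^ 2` elements together have at least `ε m ^ 3`
elementary products. -/
def Density : Prop :=
  ∀ (m : ℕ) (ε : ℝ) (P Q : Finset (Fin m × Fin m)), 0 < m →
    (1 + ε) * (m : ℝ) ^ 2 ≤ (P.card : ℝ) + Q.card → ε * (m : ℝ) ^ 3 ≤ terms P Q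

/-- **The exponent three is optimal.** For `β < 3` there are independent matrices with entries
variables or zero and at least `m ^ β` elementary products whose product has a growth exponent
smaller than that of matrix multiplication. -/
def Optimal : Prop :=
  ∀ (K : Type) [Field K] (β : ℝ), 0 < β → β < 3 →
    (∀ m : ℕ, (m : ℝ) ^ β ≤ terms (live (blockPoly K β m)) (live (blockPoly K β m))) ∧
    growth (fun m => pSize K (V := (Fin m × Fin m) ⊕ (Fin m × Fin m)) Sum.inl
      (blockPoly K β m) Sum.inr (blockPoly K β m)) < omega K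

/-- Let `F` and `H` be `m × m` matrices over an arbitrary field, every entry a polynomial in one
variable; the two matrices may share variables in any way, but inside each matrix the entries
with a derivative that is somewhere nonzero have distinct variables. See the docstrings of the
four parts. -/
theorem result : TermsBound ∧ TermsGrowth ∧ Density ∧ Optimal := by
  refine ⟨?_, ?_, ?_, ?_⟩
  · intro K _ V _ _ m ε π ρ p q C hε hm hπ hρ hT hC
    exact terms_bounds hε hm hπ hρ hT (cost_of_pcircuit C hC)
  · intro K _ d V _ _ π ρ p q hd hπ hρ hT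
    exact terms_growth d V π ρ p q hd hπ hρ hT
  · intro m ε P Q hm h
    exact terms_ge hm P Q h
  · intro K _ β hβ0 hβ
    exact ⟨terms_block hβ0 hβ.le, block_growth hβ0 hβ⟩

end Pool.Agent.Results.MP_e72dc0_lc.PartialProducts
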