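import Pool.Agent.H239.SP.Part6

set_option autoImplicit false

/-!
# Circuits for the product of a matrix with a function of itself, over every field

Definitions: `Circuit`, `Circuit.size` are in `Pool.Agent.H522R2.Circuit`; `entryMM`, `sizeMM`
(`S_K(MM_m)`), `trank` (rank of the tensor of matrix multiplication), `growth`, `omega`,
`Superlinear` in `Pool.Agent.W956.KF.Defs`; `inHalf`, `selfEntry` (entries of `A f(A)`), `Recovers`
in `Pool.Agent.H239.SP.Part2`, `linMat` in `Pool.Agent.H239.SP.Part4`, `entryMat` in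
`Pool.Agent.H239.SP.Part5`, `selfSize`, `EvSuperlinear` in `Pool.Agent.H239.SP.Part6`.
-/

namespace Pool.Agent.Results.MP_e72dc0_lc.SelfProducts

open Finset Filter MvPolynomial Pool.Agent.H522R2 Pool.Agent.W956.KF Pool.Agent.H239.SP

/-- The circuit computes the entries of `A f(A)`. -/
def ComputesSelf {K : Type} [Field K] {m : ℕ} (C : Circuit K (Fin m × Fin m))
    (f : Fin m → Fin m → MvPolynomial (Fin m × Fin m) K) : Prop :=
  ∀ i k : Fin m, ∃ v : Fin C.nodes, C.poly v = selfEntry f i k

/-- The circuit, with the entries of `Y` as inputs, computes the directions `G v (Y)`. -/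
def ComputesDirections {K : Type} [Field K] {m r : ℕ} (C : Circuit K (Fin m × Fin m))
    (G : Fin r → Fin m × Fin m → Fin m × Fin m → K) : Prop :=
  ∀ (v : Fin r) (p : Fin m × Fin m), ∃ w : Fin C.nodes, C.poly w = ∑ q, MvPolynomial.C (G v p q) * X q

/-- **General form.** `f` is any matrix of polynomials which recovers a generic matrix from `r`
directional derivatives. -/
def CoreBound : Prop :=
  ∀ (K : Type) [Field K] (m r : ℕ) (f : Fin m → Fin m → MvPolynomial (Fin m × Fin m) K)
    (b : Fin r → Bool) (σ ρ : Fin r → Equiv.Perm (Fin m)) (L : Fin r → Fin m × Fin m → K)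
    (G : Fin r → Fin m × Fin m → Fin m × Fin m → K) (C C' : Circuit K (Fin m × Fin m)), 2 ≤ m →
    Recovers f b σ ρ L G → ComputesSelf C f → ComputesDirections C' G →
    sizeMM K m ≤ C'.size + r * (48 * C.size + m ^ 2) ∧ trank K m m m ≤ 6 * r * C.size

/-- **Linear maps.** `τ` is any invertible linear map of the space of `m × m` matrices; `C` computes the
entries of `A τ(A)` and `C'` those of `τ⁻¹(A)`. -/
def LinearBound : Prop :=
  ∀ (K : Type) [Field K] (m : ℕ) (τ : (Fin m × Fin m → K) ≃ₗ[K] (Fin m × Fin m → K))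
    (C C' : Circuit K (Fin m × Fin m)), 2 ≤ m →
    ComputesSelf C (linMat (τ : (Fin m × Fin m → K) →ₗ[K] (Fin m × Fin m → K))) →
    (∀ j k, ∃ v : Fin C'.nodes, C'.poly v =
      linMat (τ.symm : (Fin m × Fin m → K) →ₗ[K] (Fin m × Fin m → K)) j k) →
    sizeMM K m ≤ 96 * C.size + C'.size + 2 * m ^ 2 ∧ trank K m m m ≤ 12 * C.size

/-- **Rearrangements, entrywise functions, sets of positions.** -/
def EntryBound : Prop :=
  ∀ (K : Type) [Field K] (m N : ℕ) (Q : Finset (Fin m × Fin m))
    (π : Fin m × Fin m → Fin m × Fin m) (t : Fin m × Fin m → Polynomial K)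
    (C : Circuit K (Fin m × Fin m)), 2 ≤ m → Set.InjOn π Q →
    (∀ x ∈ Q, ∃ c : K, (Polynomial.derivative (t x)).eval c ≠ 0) →
    m ^ 2 * (m ^ 2 - Q.card) ^ N < (m ^ 2) ^ N → ComputesSelf C (entryMat Q π t) →
    sizeMM K m ≤ 2 * N * (48 * C.size + 2 * m ^ 2) ∧ trank K m m m ≤ 12 * N * C.size

/-- **Growth.** For sets of at least `ε m ^ 2` positions the growth exponent is that of matrix
multiplication, and a superlinear lower bound is equivalent to the one asked for. -/
def EntryGrowth : Prop :=
  ∀ (K : Type) [Field K] (ε : ℝ) (d : ℕ) (Q : (m : ℕ) → Finset (Fin m × Fin m))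
    (π : (m : ℕ) → Fin m × Fin m → Fin m × Fin m) (t : (m : ℕ) → Fin m × Fin m → Polynomial K),
    0 < ε → (∀ m, Set.InjOn (π m) (Q m)) →
    (∀ m, ∀ x ∈ Q m, (t m x).natDegree ≤ d ∧ ∃ c : K, (Polynomial.derivative (t m x)).eval c ≠ 0) →
    (∀ᶠ m : ℕ in atTop, ε * (m : ℝ) ^ 2 ≤ (Q m).card) →
    growth (fun m => selfSize K m (entryMat (Q m) (π m) (t m))) = omega K ∧
      (EvSuperlinear (fun m => selfSize K m (entryMat (Q m) (π m) (t m))) ↔
        Superlinear (sizeMM K))

/-- **All positions.** The sizes agree up to constant factors and a multiple of `m ^ 2`. -/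
def AllPositions : Prop :=
  ∀ (K : Type) [Field K] (m d : ℕ) (π : Fin m × Fin m → Fin m × Fin m)
    (t : Fin m × Fin m → Polynomial K), 2 ≤ m → Function.Injective π →
    (∀ x, (t x).natDegree ≤ d ∧ ∃ c : K, (Polynomial.derivative (t x)).eval c ≠ 0) →
    sizeMM K m ≤ 96 * selfSize K m (entryMat univ π t) + 4 * m ^ 2 ∧
      selfSize K m (entryMat univ π t) ≤ sizeMM K m + 2 * d * m ^ 2

theorem cost_directions {K : Type} [Field K] {m r : ℕ} (C : Circuit K (Fin m × Fin m))
    (G : Fin r → Fin m × Fin m → Fin m × Fin m → K) (h : ComputesDirections C G) :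
    Cost (inputs K (Pool.Agent.H88R3.MM.Vars m))
      (Set.range fun t : Fin r × (Fin m × Fin m) => gform G t.1 t.2) C.size := by
  let φ : MvPolynomial (Fin m × Fin m) K →+* MvPolynomial (Pool.Agent.H88R3.MM.Vars m) K :=
    MvPolynomial.eval₂Hom MvPolynomial.C (fun x => MvPolynomial.X (Sum.inr x))
  refine ((cost_of_circuit C).map φ).mono ?_ ?_ le_rfl
  · rintro _ ⟨_, ⟨v, rfl⟩ | ⟨c, rfl⟩, rfl⟩
    · exact Or.inl ⟨.inr v, by simp [φ]⟩
    · exact Or.inr ⟨c, by simp [φ]⟩
  · rintro _ ⟨⟨v, p⟩, rfl⟩
    obtain ⟨w, hw⟩ := h v p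
    refine ⟨_, ⟨w, rfl⟩, ?_⟩
    rw [hw, map_sum]
    unfold gform
    refine Finset.sum_congr rfl fun q _ => ?_
    simp [φ]

/-- Let `A` be the generic `m × m` matrix over an arbitrary field and `f(A)` a matrix of polynomials in
its entries. See the docstrings of the five parts; together: computing `A f(A)` is as hard as
multiplying independent matrices, up to constant factors, whenever `f` is an invertible linear map
with cheap inverse, a rearrangement of the entries or an entrywise polynomial function, also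
restricted to a set of positions; the question about linear, nearly linear or superlinear growth
is the same for all of them. -/
theorem result : CoreBound ∧ LinearBound ∧ EntryBound ∧ EntryGrowth ∧ AllPositions := by
  refine ⟨?_, ?_, ?_, ?_, ?_⟩
  · intro K _ m r f b σ ρ L G C C' hm H hC hC'
    exact ⟨sizeMM_le (core_cost hm H (cost_of_self C hC) (cost_directions C' G hC')),
      core_rank hm H (cost_of_self C hC)⟩
  · intro K _ m τ C C' hm hC hC'
    have h := linear_bounds hm τ (cost_of_self C hC) (c := C'.size) (by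
      refine (cost_of_circuit C').mono subset_rfl ?_ le_rfl
      rintro _ ⟨⟨j, k⟩, rfl⟩
      exact hC' j k)
    exact ⟨sizeMM_le h.1, h.2⟩
  · intro K _ m N Q π t C hm hπ ht hN hC
    have h := entry_bounds hm Q π hπ t ht hN (cost_of_self C hC)
    exact ⟨sizeMM_le h.1, h.2⟩
  · intro K _ ε d Q π t hε hπ ht hQ
    exact entry_growth hε d Q π t hπ ht hQ
  · intro K _ m d π t hm hπ ht
    have hcost : Cost (inputs K (Fin m × Fin m)) (selfOut (entryMat univ π t))
        (sizeMM K m + m ^ 2 * (2 * d)) :=
      cost_self_of_MM _ (cost_entryMat univ π t fun x _ => (ht x).1)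
    have hN : m ^ 2 * (m ^ 2 - (univ : Finset (Fin m × Fin m)).card) ^ 1 < (m ^ 2) ^ 1 := by
      rw [Finset.card_univ, Fintype.card_prod, Fintype.card_fin, ← pow_two, Nat.sub_self]
      have : 0 < m ^ 2 := by positivity
      simpa using this
    have h := entry_bounds hm univ π hπ.injOn t (fun x _ => (ht x).2) hN (cost_selfSize hcost)
    refine ⟨(sizeMM_le h.1).trans (le_of_eq (by ring)), (selfSize_le hcost).trans
      (le_of_eq (by ring))⟩

end Pool.Agent.Results.MP_e72dc0_lc.SelfProducts
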