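import Mathlib
import Pool.Agent.Y538.Fun.Final

/-!
# Functions of a matrix product and smooth gates of bounded size: the exponent

Definitions: `Pairs`, `SolvesF` (with `IsNetF`, `Free`, `mm`) are in `Pool.Agent.Y538.Net.Defs` and
`Pool.Agent.Y538.Fun.Defs`; `HasRank`, `rk`, `omega` are in `Pool.Agent.H515R2.MMR.Rank`.
-/

set_option autoImplicit false

namespace Pool.Agent.Results.MP_e72dc0_lc.SmoothGateExponent

open Filter Pool.Agent.Y538.Net Pool.Agent.Y538.Fun Pool.Agent.H515R2.MMR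

/-- A real or complex field maps to `ℂ`. -/
theorem exists_hom (𝕜 : Type) [RCLike 𝕜] : Nonempty (𝕜 →+* ℂ) := by
  rcases (RCLike.I_mul_I_ax : (RCLike.I : 𝕜) = 0 ∨ (RCLike.I : 𝕜) * RCLike.I = -1) with h | h
  · have hz : ∀ z : 𝕜, RCLike.im z = 0 := fun z => by
      rw [RCLike.im_eq_zero h z]
    exact ⟨RingHom.mk ⟨⟨fun z => (RCLike.re z : ℂ), by simp⟩, fun x y => by
      change ((RCLike.re (x * y) : ℝ) : ℂ) = (RCLike.re x : ℂ) * (RCLike.re y : ℂ)
      rw [RCLike.mul_re, hz x, hz y]; push_cast; ring⟩ (by simp) (fun x y => by simp)⟩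
  · exact ⟨RingHom.mk ⟨⟨fun z => (RCLike.re z : ℂ) + (RCLike.im z : ℂ) * Complex.I, by simp⟩,
      fun x y => by
        change ((RCLike.re (x * y) : ℝ) : ℂ) + ((RCLike.im (x * y) : ℝ) : ℂ) * Complex.I = _ * _
        rw [RCLike.mul_re, RCLike.mul_im]
        apply Complex.ext <;> simp⟩ (by simp) (fun x y => by simp; ring)⟩

/-- Let `ω` be the exponent of matrix multiplication (over `ℂ`).
Networks get a pair `(A, B)` of real or complex `n × n` matrices. Every twice continuously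
differentiable function of `A` alone and of `B` alone is free, linear combinations are free, and a
gate applies an arbitrary twice continuously differentiable map with `a ≥ 2` inputs and `b ≥ 1`
outputs.
(1) Lower bound for arbitrary nonlinear functions of the product: if for infinitely many `n` there
are `d ≥ ε n ^ δ` (`δ > 1`) numbers `Φ (A B)`, `Φ` a submersion at `A B`, which are computed by at
most `n ^ τ` gates (for a non-meagre set of inputs, by one of countably many networks), then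
`τ ≥ (1 + δ) ω / 3`; in particular `τ ≥ ω` if `δ = 2`.
(2) It is sharp: for surjective linear `Φ = ℓ n` with `d n ≥ ε n ^ 2` values the exponent of the
number of gates is exactly `ω`. -/
theorem result {a b : ℕ} (ha : 2 ≤ a) (hb : 1 ≤ b) :
    (∀ (𝕜 : Type) [RCLike 𝕜] (ε δ τ : ℝ), 0 < ε → 1 < δ →
      (∀ N : ℕ, ∃ n : ℕ, N ≤ n ∧ ∃ (d L : ℕ) (Φ : (Fin n → Fin n → 𝕜) → Fin d → 𝕜),
        SolvesF 𝕜 n a b L d Φ ∧ ε * (n : ℝ) ^ δ ≤ d ∧ (L : ℝ) ≤ (n : ℝ) ^ τ) →
      (1 + δ) * omega / 3 ≤ τ) ∧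
    (∀ (ε : ℝ) (d : ℕ → ℕ) (ℓ : (n : ℕ) → (Fin n → Fin n → ℝ) →L[ℝ] (Fin (d n) → ℝ)),
      0 < ε → (∀ᶠ n : ℕ in atTop, ε * (n : ℝ) ^ 2 ≤ d n) → (∀ n, Function.Surjective (ℓ n)) →
      sInf {τ : ℝ | ∃ C : ℝ, ∀ n : ℕ, ∃ L : ℕ, SolvesF ℝ n a b L (d n) (ℓ n) ∧
        (L : ℝ) ≤ C * (n : ℝ) ^ τ} = omega) := by
  refine ⟨fun 𝕜 _ ε δ τ hε hδ H => ?_, fun ε d ℓ hε hd hℓ => exponent_linear ha hb hε d hd ℓ hℓ⟩
  obtain ⟨σ⟩ := exists_hom 𝕜
  exact exponent_lower σ hε hδ H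

end Pool.Agent.Results.MP_e72dc0_lc.SmoothGateExponent
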