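import Pool.Agent.V11190.VM.Adv

set_option autoImplicit false

/-!
# Nondeterministic verification of matrix products is as hard as computing them

Definitions: nondeterministic procedures `NTree`, `NTree.Accepts`, linear combinations `LF`,
computations `NSComp` and the Zariski closure `InClosure` are in `Pool.Agent.W966.Vg.Defs`; the
entries `mm` of the product of two generic matrices in `Pool.Agent.V11190.VM.Bil`; `Pos2`, `Pos3`,
`pair`, `triple`, `Verifies`, `WeaklyVerifies`, `verCost`, `weakCost`, `nsCost`, `appCost` in
`Pool.Agent.V11190.VM.Costs`; `AdvisedVerifies`, `advCost` in `Pool.Agent.V11190.VM.Adv`;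
`sizeMM` (`S_K(MM_m)`), `growth`, `omega` (growth of the tensor rank), `Superlinear` (the property
asked for) in `Pool.Agent.W956.KF.Defs`.
-/

namespace Pool.Agent.Results.MP_e72dc0_lc.Verification

open MvPolynomial Pool.Agent.W966.Vg Pool.Agent.W956.KF Pool.Agent.V11190.VM

/-- **Exact form.** A procedure which weakly verifies products with `L` multiplications and divisions
exists only if the product can be approximated with `L` multiplications; the cost of the verification
lies between the approximative and the exact number of multiplications of the computation. -/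
def Sandwich (K : Type) [Field K] : Prop :=
  (∀ (m M L : ℕ) (t : NTree K (Pos3 m)), WeaklyVerifies M t L →
    InClosure {g | NSComp K (Pos2 m) (Fin m × Fin m) L g} (mm K m)) ∧
  ∀ m : ℕ, appCost K m ≤ weakCost K m ∧ weakCost K m ≤ verCost K m ∧ verCost K m ≤ nsCost K m

/-- **The exponent.** -/
def Exponent (K : Type) [Field K] : Prop :=
  (∀ m : ℕ, 0 < m → (m : ℝ) ^ omega K ≤ 2 * weakCost K m) ∧
  growth (weakCost K) = omega K ∧ growth (verCost K) = omega K ∧
  (Superlinear (weakCost K) ↔ Superlinear (sizeMM K)) ∧
  (Superlinear (verCost K) ↔ Superlinear (sizeMM K))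

/-- **Advice.** Up to `(1 - ε) n ^ 2` reliable pieces of advice do not help; with `n ^ 2` of them no
multiplication is needed. -/
def Advice (K : Type) [Field K] : Prop :=
  (∀ (n m Q M L : ℕ) (t : NTree K (Pos3 n ⊕ Fin Q)), AdvisedVerifies Q M t L → 0 < m → m ≤ n →
    Q < (n - m + 1) ^ 2 → (m : ℝ) ^ omega K ≤ 2 * L) ∧
  (∀ ε : ℝ, 0 < ε → ε ≤ 1 → growth (advCost K ε) = omega K ∧
    (Superlinear (advCost K ε) ↔ Superlinear (sizeMM K))) ∧
  ∀ n : ℕ, ∃ t : NTree K (Pos3 n ⊕ Fin (n * n)), AdvisedVerifies (n * n) 1 t 0

/-- Let `K` be an algebraically closed field of characteristic zero. Verifying the product of two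
`m × m` matrices with unlimited guesses of elements of `K`, random choices, tests for zero and free
linear operations takes as many multiplications and divisions as computing it, up to the difference
between approximative and exact computation; the growth exponent is the exponent `ω` of matrix
multiplication, and superlinear growth (as a function of `m ^ 2`) for the verification is equivalent to
superlinear growth of the circuit size `S_K(MM_m)`. This holds already for procedures which, for a
Zariski dense set of pairs, accept the product and only boundedly many other matrices, and with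
up to `(1 - ε) m ^ 2` arbitrary reliable pieces of advice. -/
theorem result : ∀ (K : Type) [Field K] [IsAlgClosed K] [CharZero K],
    Sandwich K ∧ Exponent K ∧ Advice K := by
  intro K _ _ _
  have hinf : Infinite K := CharZero.infinite K
  have hw : ∀ m, weakCost K m ≤ trank K m m m := fun m => (weakCost_le K m).trans (verCost_le K m)
  have hv : ∀ m : ℕ, 0 < m → (m : ℝ) ^ omega K ≤ 2 * verCost K m := by
    intro m hm
    refine (omega_le_weakCost K hm).trans ?_
    have : (weakCost K m : ℝ) ≤ verCost K m := by exact_mod_cast weakCost_le K m
    linarith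
  have h2 : (0 : ℝ) < 2 := by norm_num
  refine ⟨⟨fun m M L t h => closure_of_weak h, fun m =>
    ⟨appCost_le K m, weakCost_le K m, verCost_le_nsCost K m⟩⟩,
    ⟨fun m hm => omega_le_weakCost K hm, growth_of K h2 (fun m hm => omega_le_weakCost K hm) hw,
      growth_of K h2 hv (verCost_le K), superlinear_of K h2 (fun m hm => omega_le_weakCost K hm) hw,
      superlinear_of K h2 hv (verCost_le K)⟩,
    fun n m Q M L t h hm0 hm hQ => omega_le_of_advised h hm0 hm hQ, fun ε hε hε1 => ?_,
    fun n => advised_all K n⟩
  have hc : (0 : ℝ) < 2 * (2 / ε) ^ omega K := by positivity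
  have ha : ∀ m, advCost K ε m ≤ trank K m m m :=
    fun m => (advCost_le K hε1 m).trans (verCost_le K m)
  exact ⟨growth_of K hc (fun m hm => omega_le_advCost K hε hε1 hm) ha,
    superlinear_of K hc (fun m hm => omega_le_advCost K hε hε1 hm) ha⟩

end Pool.Agent.Results.MP_e72dc0_lc.Verification
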